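import Pool.Agent.H798V.Stm

set_option autoImplicit false

namespace Pool.Agent.H798V

open Matrix
open scoped ComplexOrder

namespace S05aux

variable {m : ℕ}

theorem cpx_T (E : Matrix (Fin m ⊕ Fin m) (Fin m ⊕ Fin m) ℝ) : (cpx E)ᴴ = (cpx E)ᵀ := by
  ext i j
  simp [cpx, Matrix.conjTranspose_apply]

theorem cpx_conj (E : Matrix (Fin m ⊕ Fin m) (Fin m ⊕ Fin m) ℝ) :
    (cpx E).map (starRingEnd ℂ) = cpx E := by
  ext i j
  simp [cpx]

theorem cpx_skew (E : Matrix (Fin m ⊕ Fin m) (Fin m ⊕ Fin m) ℝ) (hE : Eᵀ = -E) :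
    (cpx E)ᵀ = -cpx E := by
  ext i j
  have h : E j i = -E i j := by
    have := congrFun (congrFun hE i) j
    simpa using this
  simp [cpx, h]

/-- entrywise conjugation is multiplicative -/
theorem map_mul' {a b c : Type} [Fintype b] (A : Matrix a b ℂ) (B : Matrix b c ℂ) :
    (A * B).map (starRingEnd ℂ) = A.map (starRingEnd ℂ) * B.map (starRingEnd ℂ) :=
  Matrix.map_mul

end S05aux

open S05aux in
theorem s05 : S05 := by
  intro m E F hE h1 h2 v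
  set H : Matrix (Fin m ⊕ Fin m) (Fin m ⊕ Fin m) ℂ := Complex.I • cpx E with hH
  have hHc : H.map (starRingEnd ℂ) = -H := by
    ext i j
    simp [hH, cpx]
  have hHH : Hᴴ = H := by
    rw [hH, conjTranspose_smul, cpx_T, cpx_skew E hE]
    ext i j
    simp
  have hHT : Hᵀ = -H := by
    rw [hH, transpose_smul, cpx_skew E hE, smul_neg]
  set F' : Matrix (Fin m ⊕ Fin m) (Fin m) ℂ := F.map (starRingEnd ℂ) with hF'
  have hF'H : F'ᴴ = Fᵀ := by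
    ext i j
    simp [hF', Matrix.conjTranspose_apply]
  have hFHc : (Fᴴ).map (starRingEnd ℂ) = Fᵀ := by
    ext i j
    simp [Matrix.conjTranspose_apply]
  have hFTc : (Fᵀ).map (starRingEnd ℂ) = Fᴴ := by
    ext i j
    simp [Matrix.conjTranspose_apply]
  -- the four blocks
  have b11 : Fᴴ * H * F = 1 := h1
  have b21 : Fᵀ * H * F = 0 := h2
  have b22 : Fᵀ * H * F' = -1 := by
    have h : (Fᴴ * H * F).map (starRingEnd ℂ) =
        (1 : Matrix (Fin m) (Fin m) ℂ).map (starRingEnd ℂ) := by rw [b11]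
    rw [map_mul', map_mul', hFHc, hHc] at h
    have h3 : (1 : Matrix (Fin m) (Fin m) ℂ).map (starRingEnd ℂ) = 1 := by
      ext i j
      by_cases hij : i = j
      · subst hij; simp
      · simp [hij]
    rw [h3, Matrix.mul_neg, Matrix.neg_mul] at h
    rw [← h, neg_neg]
  have b12 : Fᴴ * H * F' = 0 := by
    have h : (Fᵀ * H * F).map (starRingEnd ℂ) =
        (0 : Matrix (Fin m) (Fin m) ℂ).map (starRingEnd ℂ) := by rw [b21]
    rw [map_mul', map_mul', hFTc, hHc] at h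
    have h3 : (0 : Matrix (Fin m) (Fin m) ℂ).map (starRingEnd ℂ) = 0 := by
      ext i j
      simp
    rw [h3, Matrix.mul_neg, Matrix.neg_mul, neg_eq_zero] at h
    exact h
  -- left inverse and right inverse
  have hL : fromRows (Fᴴ * H) (-(Fᵀ * H)) * fromCols F F' = 1 := by
    rw [fromRows_mul_fromCols, b11, b12, Matrix.neg_mul, Matrix.neg_mul, b21, b22, neg_zero,
      neg_neg, fromBlocks_one]
  have hR : fromCols F F' * fromRows (Fᴴ * H) (-(Fᵀ * H)) = 1 := by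
    exact mul_eq_one_comm.mp hL
  have hR' : F * (Fᴴ * H) + F' * (-(Fᵀ * H)) = 1 := by
    rw [← fromCols_mul_fromRows]
    exact hR
  have hv : ∀ v : Fin m ⊕ Fin m → ℂ, v = F *ᵥ (Fᴴ *ᵥ (H *ᵥ v)) + F' *ᵥ (-(Fᵀ *ᵥ (H *ᵥ v))) := by
    intro v
    have h3 : (F * (Fᴴ * H) + F' * (-(Fᵀ * H))) *ᵥ v = v := by rw [hR', one_mulVec]
    rw [add_mulVec, ← mulVec_mulVec, ← mulVec_mulVec, ← mulVec_mulVec, neg_mulVec,
      ← mulVec_mulVec] at h3
    exact h3.symm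
  refine ⟨hv v, ?_⟩
  intro u
  have e1 : star u ⬝ᵥ (H *ᵥ F *ᵥ (Fᴴ *ᵥ (H *ᵥ v))) =
      star (Fᴴ *ᵥ (H *ᵥ u)) ⬝ᵥ (Fᴴ *ᵥ (H *ᵥ v)) := by
    rw [mulVec_mulVec, star_mulVec, star_mulVec, conjTranspose_conjTranspose, hHH,
      dotProduct_mulVec, vecMul_vecMul]
  have e2 : star u ⬝ᵥ (H *ᵥ F' *ᵥ (Fᵀ *ᵥ (H *ᵥ v))) =
      star (Fᵀ *ᵥ (H *ᵥ u)) ⬝ᵥ (Fᵀ *ᵥ (H *ᵥ v)) := by
    rw [mulVec_mulVec, star_mulVec, star_mulVec, hHH, dotProduct_mulVec, vecMul_vecMul,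
      ← hF'H, conjTranspose_conjTranspose]
  calc star u ⬝ᵥ (H *ᵥ v)
      = star u ⬝ᵥ (H *ᵥ (F *ᵥ (Fᴴ *ᵥ (H *ᵥ v)) + F' *ᵥ (-(Fᵀ *ᵥ (H *ᵥ v))))) := by rw [← hv v]
    _ = star u ⬝ᵥ (H *ᵥ F *ᵥ (Fᴴ *ᵥ (H *ᵥ v))) - star u ⬝ᵥ (H *ᵥ F' *ᵥ (Fᵀ *ᵥ (H *ᵥ v))) := by
        rw [mulVec_add, dotProduct_add, mulVec_neg, mulVec_neg, dotProduct_neg, sub_eq_add_neg]
    _ = _ := by rw [e1, e2]

end Pool.Agent.H798V
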